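import Pool.Agent.helper4.QX.Defs

/-!
# Project QX (MP_07c750), target CON: concentration of Lipschitz functions of a Gaussian vector (Maurey, Pisier)

The increment along the rotation of two independent copies is cut into `n` equal steps (telescoping and convexity of
`exp`); `n → ∞` with Rademacher's theorem and dominated convergence (Fernique).
-/

set_option autoImplicit false
set_option linter.unusedSectionVars false

open MeasureTheory ProbabilityTheory Filter Set
open scoped Topology ENNReal NNReal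

namespace Pool.Agent.QX

private theorem CON_ac (ι : Type) [Fintype ι] : Measure.pi (fun _ : ι => gaussianReal 0 1) ≪ (volume : Measure (ι → ℝ)) := by
  have hgi : Integrable (gaussianPDFReal 0 1) := integrable_gaussianPDFReal 0 1
  have hg0 : ∀ x, 0 ≤ gaussianPDFReal 0 1 x := gaussianPDFReal_nonneg 0 1
  have h : Measure.pi (fun _ : ι => gaussianReal 0 1) =
      (volume : Measure (ι → ℝ)).withDensity (fun x => ENNReal.ofReal (∏ i, gaussianPDFReal 0 1 (x i))) := by
    apply Measure.pi_eq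
    intro s hs
    have hms : MeasurableSet (Set.pi Set.univ s) := MeasurableSet.univ_pi hs
    rw [withDensity_apply _ hms, ← lintegral_indicator hms]
    have e1 : ∀ x : ι → ℝ, (Set.pi Set.univ s).indicator (fun x => ENNReal.ofReal (∏ i, gaussianPDFReal 0 1 (x i))) x =
        ENNReal.ofReal (∏ i, (s i).indicator (gaussianPDFReal 0 1) (x i)) := by
      intro x
      by_cases hx : x ∈ Set.pi Set.univ s
      · rw [Set.indicator_of_mem hx]
        congr 1
        refine Finset.prod_congr rfl fun i _ => ?_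
        rw [Set.indicator_of_mem (hx i (Set.mem_univ i))]
      · rw [Set.indicator_of_notMem hx]
        have hx' : ∃ i, x i ∉ s i := by
          by_contra hcon
          push Not at hcon
          exact hx fun i _ => hcon i
        obtain ⟨i, hi⟩ := hx'
        rw [Finset.prod_eq_zero (Finset.mem_univ i) (Set.indicator_of_notMem hi _), ENNReal.ofReal_zero]
    rw [lintegral_congr e1]
    have hint : ∀ i, Integrable ((s i).indicator (gaussianPDFReal 0 1)) := fun i => hgi.indicator (hs i)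
    rw [← ofReal_integral_eq_lintegral_ofReal]
    · rw [volume_pi, integral_fintype_prod_eq_prod, ENNReal.ofReal_prod_of_nonneg]
      · refine Finset.prod_congr rfl fun i _ => ?_
        rw [integral_indicator (hs i), gaussianReal_of_var_ne_zero 0 one_ne_zero, withDensity_apply _ (hs i),
          ofReal_integral_eq_lintegral_ofReal hgi.integrableOn (ae_of_all _ hg0)]
        rfl
      · intro i _
        exact integral_nonneg fun x => Set.indicator_nonneg (fun y _ => hg0 y) x
    · rw [volume_pi]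
      exact Integrable.fintype_prod hint
    · exact ae_of_all _ fun x => Finset.prod_nonneg fun i _ => Set.indicator_nonneg (fun y _ => hg0 y) _
  rw [h]
  exact withDensity_absolutelyContinuous _ _

section
variable {E : Type} [NormedAddCommGroup E] [InnerProductSpace ℝ E] [FiniteDimensional ℝ E] [MeasurableSpace E] [BorelSpace E]

private theorem CON_mgf (A : StrongDual ℝ E) (c : ℝ) :
    ∫ y, Real.exp (c * A y) ∂(stdGaussian E) = Real.exp (c ^ 2 * ‖A‖ ^ 2 / 2) := by
  have h1 : (stdGaussian E).map A = gaussianReal 0 (Real.toNNReal (‖A‖ ^ 2)) := by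
    rw [IsGaussian.map_eq_gaussianReal, integral_strongDual_stdGaussian, variance_dual_stdGaussian]
  have h2 := mgf_gaussianReal h1 c
  unfold mgf at h2
  rw [h2, Real.coe_toNNReal _ (by positivity)]
  congr 1
  ring

private theorem CON_exp (c : ℝ) : Integrable (fun x : E => Real.exp (c * ‖x‖)) (stdGaussian E) := by
  obtain ⟨C, hC, hi⟩ := IsGaussian.exists_integrable_exp_sq (stdGaussian E)
  refine (hi.const_mul (Real.exp (c ^ 2 / (4 * C)))).mono' (by fun_prop) (ae_of_all _ fun x => ?_)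
  rw [Real.norm_of_nonneg (Real.exp_pos _).le, ← Real.exp_add]
  apply Real.exp_le_exp.mpr
  have h : c ^ 2 / (4 * C) + C * ‖x‖ ^ 2 - c * ‖x‖ = (c - 2 * C * ‖x‖) ^ 2 / (4 * C) := by
    field_simp
    ring
  have h2 : 0 ≤ (c - 2 * C * ‖x‖) ^ 2 / (4 * C) := by positivity
  linarith

private theorem CON_exp2 (c : ℝ) : Integrable (fun p : E × E => Real.exp (c * (‖p.1‖ + ‖p.2‖)))
    ((stdGaussian E).prod (stdGaussian E)) := by
  have h := (CON_exp (E := E) c).mul_prod (CON_exp (E := E) c)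
  refine h.congr (ae_of_all _ fun p => ?_)
  show Real.exp (c * ‖p.1‖) * Real.exp (c * ‖p.2‖) = _
  rw [← Real.exp_add]
  congr 1
  ring

private theorem CON_rot (θ : ℝ) : ((stdGaussian E).prod (stdGaussian E)).map (ContinuousLinearMap.rotation θ) =
    (stdGaussian E).prod (stdGaussian E) :=
  IsGaussian.map_rotation_eq_self_of_forall_strongDual_eq_zero (fun L => integral_strongDual_stdGaussian L) θ

/-- one step -/
private noncomputable def CON_G (F : E → ℝ) (c : ℝ) (δ : ℝ) (p : E × E) : ℝ :=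
  Real.exp (c * (F (Real.cos δ • p.1 + Real.sin δ • p.2) - F p.1))

private theorem CON_bd (F : E → ℝ) (L : ℝ≥0) (hF : LipschitzWith L F) (c : ℝ) (hc : 0 ≤ c) (δ : ℝ) (h0 : 0 ≤ δ) (h2 : δ ≤ 2)
    (p : E × E) : |c * (F (Real.cos δ • p.1 + Real.sin δ • p.2) - F p.1)| ≤ (c * δ * L) * (‖p.1‖ + ‖p.2‖) := by
  have h3 := hF.dist_le_mul (Real.cos δ • p.1 + Real.sin δ • p.2) p.1
  rw [Real.dist_eq, dist_eq_norm] at h3
  have h4 : Real.cos δ • p.1 + Real.sin δ • p.2 - p.1 = (Real.cos δ - 1) • p.1 + Real.sin δ • p.2 := by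
    rw [sub_smul, one_smul]
    abel
  have h5 : |Real.cos δ - 1| ≤ δ := by
    rw [abs_sub_comm, abs_of_nonneg (by linarith [Real.cos_le_one δ])]
    have := Real.one_sub_sq_div_two_le_cos (x := δ)
    nlinarith
  have h6 : |Real.sin δ| ≤ δ := (Real.abs_sin_le_abs (x := δ)).trans (le_of_eq (abs_of_nonneg h0))
  have h7 : ‖Real.cos δ • p.1 + Real.sin δ • p.2 - p.1‖ ≤ δ * (‖p.1‖ + ‖p.2‖) := by
    rw [h4]
    refine (norm_add_le _ _).trans ?_
    rw [norm_smul, norm_smul, Real.norm_eq_abs, Real.norm_eq_abs, mul_add]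
    exact add_le_add (mul_le_mul_of_nonneg_right h5 (norm_nonneg _)) (mul_le_mul_of_nonneg_right h6 (norm_nonneg _))
  rw [abs_mul, abs_of_nonneg hc]
  calc c * |F (Real.cos δ • p.1 + Real.sin δ • p.2) - F p.1| ≤ c * (L * (δ * (‖p.1‖ + ‖p.2‖))) :=
        mul_le_mul_of_nonneg_left (h3.trans (mul_le_mul_of_nonneg_left h7 L.2)) hc
    _ = _ := by ring

private theorem CON_Gbd (F : E → ℝ) (L : ℝ≥0) (hF : LipschitzWith L F) (c : ℝ) (hc : 0 ≤ c) (δ : ℝ) (h0 : 0 ≤ δ) (h2 : δ ≤ 2)
    (p : E × E) : ‖CON_G F c δ p‖ ≤ Real.exp ((c * δ * L) * (‖p.1‖ + ‖p.2‖)) := by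
  unfold CON_G
  rw [Real.norm_of_nonneg (Real.exp_pos _).le]
  exact Real.exp_le_exp.mpr ((le_abs_self _).trans (CON_bd F L hF c hc δ h0 h2 p))

private theorem CON_Gcont (F : E → ℝ) (hF : Continuous F) (c δ : ℝ) : Continuous (CON_G F c δ) := by
  unfold CON_G
  fun_prop

private theorem CON_Gint (F : E → ℝ) (L : ℝ≥0) (hF : LipschitzWith L F) (c : ℝ) (hc : 0 ≤ c) (δ : ℝ) (h0 : 0 ≤ δ) (h2 : δ ≤ 2) :
    Integrable (CON_G F c δ) ((stdGaussian E).prod (stdGaussian E)) :=
  (CON_exp2 (c * δ * L)).mono' (CON_Gcont F hF.continuous c δ).aestronglyMeasurable (ae_of_all _ fun p => CON_Gbd F L hF c hc δ h0 h2 p)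

/-- telescoping along the rotation -/
private theorem CON_tel (F : E → ℝ) (L : ℝ≥0) (hF : LipschitzWith L F) (lam : ℝ) (hl : 0 ≤ lam) (n : ℕ) (hn : 1 ≤ n) :
    Integrable (fun p : E × E => Real.exp (lam * (F p.2 - F p.1))) ((stdGaussian E).prod (stdGaussian E)) ∧
    ∫ p : E × E, Real.exp (lam * (F p.2 - F p.1)) ∂((stdGaussian E).prod (stdGaussian E)) ≤
      ∫ p, CON_G F (lam * n) (Real.pi / 2 / n) p ∂((stdGaussian E).prod (stdGaussian E)) := by
  have hn0 : (0 : ℝ) < n := by exact_mod_cast hn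
  obtain ⟨δ, hδ⟩ : ∃ δ : ℝ, δ = Real.pi / 2 / n := ⟨_, rfl⟩
  have hδ0 : 0 ≤ δ := by rw [hδ]; positivity
  have hδ2 : δ ≤ 2 := by
    rw [hδ]
    have h1 : Real.pi / 2 / n ≤ Real.pi / 2 := div_le_self (by positivity) (by exact_mod_cast hn)
    have h2 := Real.pi_le_four
    linarith
  rw [← hδ]
  set μ2 := (stdGaussian E).prod (stdGaussian E) with hμ2
  have hint : Integrable (CON_G F (lam * n) δ) μ2 := CON_Gint F L hF _ (by positivity) δ hδ0 hδ2
  have hk : ∀ k : ℕ, Integrable (fun p => CON_G F (lam * n) δ (ContinuousLinearMap.rotation ((k : ℝ) * δ) p)) μ2 ∧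
      ∫ p, CON_G F (lam * n) δ (ContinuousLinearMap.rotation ((k : ℝ) * δ) p) ∂μ2 = ∫ p, CON_G F (lam * n) δ p ∂μ2 := by
    intro k
    have hm : Measurable (ContinuousLinearMap.rotation ((k : ℝ) * δ) : E × E →L[ℝ] E × E) :=
      (ContinuousLinearMap.rotation ((k : ℝ) * δ) : E × E →L[ℝ] E × E).continuous.measurable
    constructor
    · have h1 : Integrable (CON_G F (lam * n) δ) (μ2.map (ContinuousLinearMap.rotation ((k : ℝ) * δ))) := by
        rw [hμ2, CON_rot]
        exact hint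
      exact h1.comp_measurable hm
    · have h1 := integral_map (μ := μ2) hm.aemeasurable (f := CON_G F (lam * n) δ)
        (by rw [hμ2, CON_rot]; exact (CON_Gcont F hF.continuous _ δ).aestronglyMeasurable)
      rw [← h1, hμ2, CON_rot]
  have hZ : ∀ (k : ℕ) (p : E × E), CON_G F (lam * n) δ (ContinuousLinearMap.rotation ((k : ℝ) * δ) p) =
      Real.exp (lam * n * (F (Real.cos (((k + 1 : ℕ) : ℝ) * δ) • p.1 + Real.sin (((k + 1 : ℕ) : ℝ) * δ) • p.2) -
        F (Real.cos ((k : ℝ) * δ) • p.1 + Real.sin ((k : ℝ) * δ) • p.2))) := by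
    intro k p
    unfold CON_G
    rw [ContinuousLinearMap.rotation_apply]
    have e : Real.cos δ • (Real.cos ((k : ℝ) * δ) • p.1 + Real.sin ((k : ℝ) * δ) • p.2) +
        Real.sin δ • (-Real.sin ((k : ℝ) * δ) • p.1 + Real.cos ((k : ℝ) * δ) • p.2) =
        Real.cos (((k + 1 : ℕ) : ℝ) * δ) • p.1 + Real.sin (((k + 1 : ℕ) : ℝ) * δ) • p.2 := by
      have e1 : ((k + 1 : ℕ) : ℝ) * δ = (k : ℝ) * δ + δ := by push_cast; ring
      rw [e1, Real.cos_add, Real.sin_add]
      module
    rw [e]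
  have hpt : ∀ p : E × E, Real.exp (lam * (F p.2 - F p.1)) ≤
      ∑ k ∈ Finset.range n, (1 / (n : ℝ)) * CON_G F (lam * n) δ (ContinuousLinearMap.rotation ((k : ℝ) * δ) p) := by
    intro p
    have h1 : lam * (F p.2 - F p.1) = ∑ k ∈ Finset.range n, (1 / (n : ℝ)) • (lam * n *
        (F (Real.cos (((k + 1 : ℕ) : ℝ) * δ) • p.1 + Real.sin (((k + 1 : ℕ) : ℝ) * δ) • p.2) -
        F (Real.cos ((k : ℝ) * δ) • p.1 + Real.sin ((k : ℝ) * δ) • p.2))) := by
      have h2 := Finset.sum_range_sub (fun k : ℕ => F (Real.cos ((k : ℝ) * δ) • p.1 + Real.sin ((k : ℝ) * δ) • p.2)) n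
      have h3 : (n : ℝ) * δ = Real.pi / 2 := by rw [hδ]; field_simp
      rw [h3, Real.cos_pi_div_two, Real.sin_pi_div_two] at h2
      simp only [Nat.cast_zero, zero_mul, Real.cos_zero, Real.sin_zero, zero_smul, one_smul, zero_add, add_zero] at h2
      rw [← h2, Finset.mul_sum]
      refine Finset.sum_congr rfl fun k _ => ?_
      rw [smul_eq_mul]
      field_simp
    rw [h1]
    have hw : ∑ k ∈ Finset.range n, (1 / (n : ℝ)) = 1 := by
      rw [Finset.sum_const, Finset.card_range, nsmul_eq_mul]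
      field_simp
    refine (convexOn_exp.map_sum_le (fun _ _ => by positivity) hw (fun _ _ => Set.mem_univ _)).trans (le_of_eq ?_)
    refine Finset.sum_congr rfl fun k _ => ?_
    rw [hZ, smul_eq_mul]
  have hsum : Integrable (fun p => ∑ k ∈ Finset.range n, (1 / (n : ℝ)) *
      CON_G F (lam * n) δ (ContinuousLinearMap.rotation ((k : ℝ) * δ) p)) μ2 :=
    integrable_finsetSum _ fun k _ => (hk k).1.const_mul _
  have hi : Integrable (fun p : E × E => Real.exp (lam * (F p.2 - F p.1))) μ2 := by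
    refine hsum.mono' ?_ (ae_of_all _ fun p => ?_)
    · have := hF.continuous
      exact (by fun_prop : Continuous (fun p : E × E => Real.exp (lam * (F p.2 - F p.1)))).aestronglyMeasurable
    · rw [Real.norm_of_nonneg (Real.exp_pos _).le]
      exact hpt p
  refine ⟨hi, (integral_mono hi hsum hpt).trans (le_of_eq ?_)⟩
  rw [integral_finsetSum _ fun k _ => (hk k).1.const_mul _]
  have h4 : ∀ k ∈ Finset.range n, ∫ p, (1 / (n : ℝ)) * CON_G F (lam * n) δ (ContinuousLinearMap.rotation ((k : ℝ) * δ) p) ∂μ2 =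
      (1 / (n : ℝ)) * ∫ p, CON_G F (lam * n) δ p ∂μ2 := by
    intro k _
    rw [integral_const_mul, (hk k).2]
  rw [Finset.sum_congr rfl h4, Finset.sum_const, Finset.card_range, nsmul_eq_mul]
  field_simp

/-- the limit at a point of differentiability -/
private theorem CON_lim (F : E → ℝ) (p : E × E) (hd : DifferentiableAt ℝ F p.1) (lam : ℝ) :
    Tendsto (fun n : ℕ => CON_G F (lam * n) (Real.pi / 2 / n) p) atTop (𝓝 (Real.exp (lam * (Real.pi / 2) * fderiv ℝ F p.1 p.2))) := by
  have h1 : HasDerivAt (fun δ : ℝ => Real.cos δ • p.1 + Real.sin δ • p.2) p.2 0 := by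
    have h2 := ((Real.hasDerivAt_cos 0).smul_const p.1).add ((Real.hasDerivAt_sin 0).smul_const p.2)
    simp only [Real.sin_zero, neg_zero, zero_smul, Real.cos_zero, one_smul, zero_add] at h2
    exact h2
  have h0 : Real.cos 0 • p.1 + Real.sin 0 • p.2 = p.1 := by simp
  have h3 : HasDerivAt (fun δ : ℝ => F (Real.cos δ • p.1 + Real.sin δ • p.2)) (fderiv ℝ F p.1 p.2) 0 := by
    have h4 : HasFDerivAt F (fderiv ℝ F p.1) (Real.cos 0 • p.1 + Real.sin 0 • p.2) := by
      rw [h0]
      exact hd.hasFDerivAt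
    exact h4.comp_hasDerivAt (0 : ℝ) h1
  have h5 := hasDerivAt_iff_tendsto_slope_zero.mp h3
  simp only [zero_add] at h5
  rw [h0] at h5
  have h6 : Tendsto (fun n : ℕ => Real.pi / 2 / (n : ℝ)) atTop (𝓝[≠] 0) := by
    refine tendsto_nhdsWithin_iff.mpr ⟨tendsto_const_div_atTop_nhds_zero_nat _, ?_⟩
    filter_upwards [eventually_ge_atTop 1] with n hn
    have hn0 : (0 : ℝ) < n := by exact_mod_cast hn
    have : 0 < Real.pi / 2 / (n : ℝ) := by positivity
    exact this.ne'
  have h7 := (h5.comp h6).const_mul (lam * (Real.pi / 2))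
  refine (Real.continuous_exp.tendsto _).comp (h7.congr' ?_)
  filter_upwards [eventually_ge_atTop 1] with n hn
  have hn0 : (0 : ℝ) < n := by exact_mod_cast hn
  show lam * (Real.pi / 2) * ((Real.pi / 2 / (n : ℝ))⁻¹ • (F (Real.cos (Real.pi / 2 / (n : ℝ)) • p.1 + Real.sin (Real.pi / 2 / (n : ℝ)) • p.2) - F p.1)) =
    lam * n * (F (Real.cos (Real.pi / 2 / (n : ℝ)) • p.1 + Real.sin (Real.pi / 2 / (n : ℝ)) • p.2) - F p.1)
  rw [smul_eq_mul]
  have hpi : Real.pi ≠ 0 := Real.pi_ne_zero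
  field_simp

/-- the exponential moment of the difference of two independent copies -/
private theorem CON_mom (hac : stdGaussian E ≪ (volume : Measure E)) (F : E → ℝ) (L : ℝ≥0) (hF : LipschitzWith L F) (lam : ℝ) (hl : 0 ≤ lam) :
    Integrable (fun p : E × E => Real.exp (lam * (F p.2 - F p.1))) ((stdGaussian E).prod (stdGaussian E)) ∧
    ∫ p : E × E, Real.exp (lam * (F p.2 - F p.1)) ∂((stdGaussian E).prod (stdGaussian E)) ≤
      Real.exp (lam ^ 2 * Real.pi ^ 2 * L ^ 2 / 8) := by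
  have hae : ∀ᵐ p ∂((stdGaussian E).prod (stdGaussian E)), DifferentiableAt ℝ F p.1 := by
    have h1 : ∀ᵐ x ∂(stdGaussian E), DifferentiableAt ℝ F x := hac.ae_le hF.ae_differentiableAt
    exact Measure.quasiMeasurePreserving_fst.ae h1
  have hbound : ∀ n : ℕ, ∀ᵐ p ∂((stdGaussian E).prod (stdGaussian E)),
      ‖CON_G F (lam * n) (Real.pi / 2 / n) p‖ ≤ Real.exp ((lam * (Real.pi / 2) * L) * (‖p.1‖ + ‖p.2‖)) := by
    intro n
    refine ae_of_all _ fun p => ?_
    rcases Nat.eq_zero_or_pos n with h | h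
    · subst h
      unfold CON_G
      simp only [Nat.cast_zero, mul_zero, zero_mul, Real.exp_zero, norm_one]
      exact Real.one_le_exp (by positivity)
    · have hn0 : (0 : ℝ) < n := by exact_mod_cast h
      have hδ2 : Real.pi / 2 / (n : ℝ) ≤ 2 := by
        have h1 : Real.pi / 2 / (n : ℝ) ≤ Real.pi / 2 := div_le_self (by positivity) (by exact_mod_cast h)
        have h2 := Real.pi_le_four
        linarith
      have h3 := CON_Gbd F L hF (lam * n) (by positivity) (Real.pi / 2 / n) (by positivity) hδ2 p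
      have h4 : lam * n * (Real.pi / 2 / n) * L = lam * (Real.pi / 2) * L := by
        field_simp
      rwa [h4] at h3
  have hlim : ∀ᵐ p ∂((stdGaussian E).prod (stdGaussian E)),
      Tendsto (fun n : ℕ => CON_G F (lam * n) (Real.pi / 2 / n) p) atTop (𝓝 (Real.exp (lam * (Real.pi / 2) * fderiv ℝ F p.1 p.2))) := by
    filter_upwards [hae] with p hp
    exact CON_lim F p hp lam
  have hmeas : ∀ n : ℕ, AEStronglyMeasurable (CON_G F (lam * n) (Real.pi / 2 / n)) ((stdGaussian E).prod (stdGaussian E)) :=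
    fun n => (CON_Gcont F hF.continuous _ _).aestronglyMeasurable
  have hgi := CON_exp2 (E := E) (lam * (Real.pi / 2) * L)
  have hT := tendsto_integral_of_dominated_convergence _ hmeas hgi hbound hlim
  have hmf : AEStronglyMeasurable (fun p : E × E => Real.exp (lam * (Real.pi / 2) * fderiv ℝ F p.1 p.2))
      ((stdGaussian E).prod (stdGaussian E)) := aestronglyMeasurable_of_tendsto_ae _ hmeas hlim
  have hif : Integrable (fun p : E × E => Real.exp (lam * (Real.pi / 2) * fderiv ℝ F p.1 p.2))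
      ((stdGaussian E).prod (stdGaussian E)) := by
    refine hgi.mono' hmf ?_
    filter_upwards [hlim, ae_all_iff.mpr hbound] with p hp hb
    exact le_of_tendsto' hp.norm hb
  have hval : ∫ p : E × E, Real.exp (lam * (Real.pi / 2) * fderiv ℝ F p.1 p.2) ∂((stdGaussian E).prod (stdGaussian E)) ≤
      Real.exp (lam ^ 2 * Real.pi ^ 2 * L ^ 2 / 8) := by
    rw [integral_prod _ hif]
    have h1 : ∀ x : E, ∫ y, Real.exp (lam * (Real.pi / 2) * fderiv ℝ F x y) ∂(stdGaussian E) ≤ Real.exp (lam ^ 2 * Real.pi ^ 2 * L ^ 2 / 8) := by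
      intro x
      rw [CON_mgf]
      apply Real.exp_le_exp.mpr
      have h2 : ‖fderiv ℝ F x‖ ≤ L := norm_fderiv_le_of_lipschitz ℝ hF
      have h3 : ‖fderiv ℝ F x‖ ^ 2 ≤ (L : ℝ) ^ 2 := pow_le_pow_left₀ (norm_nonneg _) h2 2
      calc (lam * (Real.pi / 2)) ^ 2 * ‖fderiv ℝ F x‖ ^ 2 / 2 ≤ (lam * (Real.pi / 2)) ^ 2 * (L : ℝ) ^ 2 / 2 :=
            div_le_div_of_nonneg_right (mul_le_mul_of_nonneg_left h3 (sq_nonneg _)) (by norm_num)
        _ = lam ^ 2 * Real.pi ^ 2 * L ^ 2 / 8 := by ring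
    calc ∫ x, ∫ y, Real.exp (lam * (Real.pi / 2) * fderiv ℝ F x y) ∂(stdGaussian E) ∂(stdGaussian E)
        ≤ ∫ _x : E, Real.exp (lam ^ 2 * Real.pi ^ 2 * L ^ 2 / 8) ∂(stdGaussian E) :=
          integral_mono hif.integral_prod_left (integrable_const _) h1
      _ = Real.exp (lam ^ 2 * Real.pi ^ 2 * L ^ 2 / 8) := by simp
  refine ⟨(CON_tel F L hF lam hl 1 le_rfl).1, ?_⟩
  refine ge_of_tendsto hT ?_ |>.trans hval
  filter_upwards [eventually_ge_atTop 1] with n hn
  exact (CON_tel F L hF lam hl n hn).2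

private theorem CON_prob (hac : stdGaussian E ≪ (volume : Measure E)) (F : E → ℝ) (L : ℝ≥0) (hF : LipschitzWith L F) (hL : 0 < L)
    (t s : ℝ) (hs : 0 ≤ s) : (stdGaussian E).real {x | F x ≤ t} * (stdGaussian E).real {x | t + s ≤ F x} ≤
      Real.exp (-(2 * s ^ 2 / (Real.pi ^ 2 * L ^ 2))) := by
  have hL0 : (0 : ℝ) < L := hL
  obtain ⟨lam, hlam⟩ : ∃ lam : ℝ, lam = 4 * s / (Real.pi ^ 2 * L ^ 2) := ⟨_, rfl⟩
  have hl : 0 ≤ lam := by
    rw [hlam]
    positivity
  obtain ⟨hi, hm⟩ := CON_mom hac F L hF lam hl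
  have h1 := measure_ge_le_exp_mul_mgf (μ := (stdGaussian E).prod (stdGaussian E)) (X := fun p : E × E => F p.2 - F p.1) s hl hi
  have h2 : (stdGaussian E).real {x | F x ≤ t} * (stdGaussian E).real {x | t + s ≤ F x} ≤
      ((stdGaussian E).prod (stdGaussian E)).real {p : E × E | s ≤ F p.2 - F p.1} := by
    rw [← measureReal_prod_prod]
    refine measureReal_mono ?_
    rintro ⟨x, y⟩ ⟨hx, hy⟩
    have hx' : F x ≤ t := hx
    have hy' : t + s ≤ F y := hy
    show s ≤ F y - F x
    linarith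
  refine (h2.trans h1).trans ?_
  unfold mgf
  refine (mul_le_mul_of_nonneg_left hm (Real.exp_pos _).le).trans (le_of_eq ?_)
  rw [← Real.exp_add, hlam]
  congr 1
  have hpi : Real.pi ≠ 0 := Real.pi_ne_zero
  field_simp
  ring

end

theorem CON : CON_stmt := by
  intro ι _ F L t s hL hs hF ht
  have hmeas : Measurable (WithLp.toLp 2 : (ι → ℝ) → EuclideanSpace ℝ ι) := by fun_prop
  have hstd : (gau ι).map (WithLp.toLp 2) = stdGaussian (EuclideanSpace ℝ ι) := map_pi_eq_stdGaussian
  have hac : stdGaussian (EuclideanSpace ℝ ι) ≪ (volume : Measure (EuclideanSpace ℝ ι)) := by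
    rw [← hstd, ← (PiLp.volume_preserving_toLp ι).map_eq]
    exact (CON_ac ι).map hmeas
  obtain ⟨F', hF'⟩ : ∃ F' : EuclideanSpace ℝ ι → ℝ, F' = fun y => F (WithLp.ofLp y) := ⟨_, rfl⟩
  have hlip : LipschitzWith ⟨L, hL.le⟩ F' := by
    refine LipschitzWith.of_dist_le_mul fun y z => ?_
    rw [Real.dist_eq, EuclideanSpace.dist_eq, hF']
    refine (hF _ _).trans (le_of_eq ?_)
    show L * Real.sqrt (∑ i, (y i - z i) ^ 2) = L * Real.sqrt (∑ i, dist (y i) (z i) ^ 2)
    congr 2
    refine Finset.sum_congr rfl fun i _ => ?_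
    rw [Real.dist_eq, sq_abs]
  have hp := CON_prob hac F' ⟨L, hL.le⟩ hlip hL t s hs
  have e1 : (stdGaussian (EuclideanSpace ℝ ι)).real {y | F' y ≤ t} = (gau ι).real {x | F x ≤ t} := by
    rw [← hstd, map_measureReal_apply hmeas (isClosed_le hlip.continuous continuous_const).measurableSet, hF']
    rfl
  have e2 : (stdGaussian (EuclideanSpace ℝ ι)).real {y | t + s ≤ F' y} = (gau ι).real {x | t + s ≤ F x} := by
    rw [← hstd, map_measureReal_apply hmeas (isClosed_le continuous_const hlip.continuous).measurableSet, hF']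
    rfl
  rw [e1, e2] at hp
  have h0 : 0 ≤ (gau ι).real {x | t + s ≤ F x} := measureReal_nonneg
  have h1 : 1 / 2 * (gau ι).real {x | t + s ≤ F x} ≤ Real.exp (-(2 * s ^ 2 / (Real.pi ^ 2 * L ^ 2))) :=
    (mul_le_mul_of_nonneg_right ht h0).trans hp
  have h2 : Real.exp (-(2 * s ^ 2 / (Real.pi ^ 2 * L ^ 2))) ≤ Real.exp (-(s ^ 2 / (5 * L ^ 2))) := by
    apply Real.exp_le_exp.mpr
    apply neg_le_neg
    have hpi : Real.pi ^ 2 ≤ 10 := by
      have h3 := Real.pi_lt_d2
      have h4 := Real.pi_pos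
      nlinarith
    have hpi0 : 0 < Real.pi ^ 2 := by positivity
    rw [div_le_div_iff₀ (by positivity) (by positivity)]
    have h5 : 0 ≤ s ^ 2 * L ^ 2 := by positivity
    nlinarith
  linarith

end Pool.Agent.QX
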